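import Pool.Agent.R813.FanSix

/-! # Two smooth fans whose homeomorphism groups have exactly six orbits

Q1 is false: there are two smooth fans in the plane that are not homeomorphic and are both
`1/6`-homogeneous.

The first fan has a main blade with marks `x_n` (`n` an integer) that converge to the top and to the
endpoint of the blade, and isolated side blades that converge to the main blade, whose heights are
the marks, each mark being attained infinitely often. Its orbits are: the top, the endpoint of the
main blade, the endpoints of the side blades, the marks on the main blade, the other interior points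
of the main blade, the interior points of the side blades. The second fan is the wedge of two copies
at the top.

The definitions `IsArc`, `IsSubcontinuum`, `HereditarilyUnicoherent`, `IsRamification`, `IsFan`,
`IsSeg`, `IsSmooth` are in `Pool/Agent/H545R3/FanDefs.lean`. -/

set_option autoImplicit false

open Set Topology Filter Pool.Agent.H545R3.Fan Pool.Agent.R813.FanWedge Pool.Agent.R813.FanSix

namespace Pool.Agent.Results.MP_2a55c9_gt.TwoSixFans

/-- `X` is `1/n`-homogeneous: the homeomorphism group of `X` has exactly `n` orbits, that is, `X`
can be divided into `n` nonempty classes such that two points are in the same class exactly when a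
homeomorphism of `X` onto itself sends one to the other. -/
def HasOrbits (X : Type*) [TopologicalSpace X] (n : ℕ) : Prop :=
  ∃ f : X → Fin n, Function.Surjective f ∧ ∀ x y, f x = f y ↔ ∃ h : X ≃ₜ X, h x = y

/-- There are two smooth `1/6`-homogeneous fans (subspaces of the plane) that are not
homeomorphic. -/
theorem result : ∃ (F G : Set (ℝ × ℝ)) (tF : F) (tG : G),
    IsFan F tF ∧ IsFan G tG ∧ IsSmooth tF ∧ IsSmooth tG ∧
    HasOrbits F 6 ∧ HasOrbits G 6 ∧ ¬ Nonempty (F ≃ₜ G) :=
  ⟨Fan K1, Fan (WK KD), top goodK1, top (good_WK goodKD), isFan _, isFan _, isSmooth _, isSmooth _,
    degree1, degree2, not_homeo6⟩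

end Pool.Agent.Results.MP_2a55c9_gt.TwoSixFans
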